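import Pool.Agent.N563.LSP.Stm

set_option autoImplicit false

/-!
Project LSP (helper563): convolution with an integrable kernel.
-/

open MeasureTheory Set Complex
open scoped ENNReal FourierTransform

namespace Pool.Agent.N7.LSP

open Pool.Agent.TH280.LS Pool.Agent.N563.LSP

/-- the kernel -/
noncomputable def ker (M : ℝ → ℂ) (x : ℝ) : ℂ := ∫ ξ : ℝ, e (x * ξ) * M ξ

theorem ker_eq (M : ℝ → ℂ) (x : ℝ) : ker M x = ft M (-x) := by
  unfold ker ft
  refine integral_congr_ae (Filter.Eventually.of_forall fun ξ => ?_)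
  show e (x * ξ) * M ξ = e (-(ξ * -x)) * M ξ
  congr 2
  ring

theorem continuous_ker {M : ℝ → ℂ} (h : Integrable M) : Continuous (ker M) := by
  have : ker M = fun x => ft M (-x) := funext fun x => ker_eq M x
  rw [this]
  exact (continuous_ft h).comp continuous_neg

theorem ker_inv {M : ℝ → ℂ} (hc : Continuous M) (hM : Integrable M) (hK : Integrable (ker M))
    (ξ : ℝ) : ft (ker M) ξ = M ξ := by
  have e1 : ft M = FourierTransform.fourier M := funext fun ξ => ft_eq M ξ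
  have e2 : ker M = FourierTransformInv.fourierInv M := by
    funext x
    rw [ker_eq, Real.fourierInv_eq_fourier_neg, e1]
  have hF : Integrable (FourierTransform.fourier M) := by
    rw [← e1]
    have h1 : ft M = fun x => ker M (-x) := by
      funext x
      rw [ker_eq, neg_neg]
    rw [h1]
    exact hK.comp_neg
  rw [ft_eq, e2, hc.fourier_fourierInv_eq hM hF]

theorem integrable_ker {M : ℝ → ℂ} {κ : ℝ} (hM : Integrable M)
    (hK : ∫⁻ x : ℝ, ‖ker M x‖ₑ ≤ ENNReal.ofReal κ) : Integrable (ker M) :=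
  ⟨(continuous_ker hM).aestronglyMeasurable, hK.trans_lt ENNReal.ofReal_lt_top⟩

theorem norm_ker {M : ℝ → ℂ} {κ : ℝ} (hκ : 0 ≤ κ) (hM : Integrable M)
    (hK : ∫⁻ x : ℝ, ‖ker M x‖ₑ ≤ ENNReal.ofReal κ) : ∫ x, ‖ker M x‖ ≤ κ := by
  rw [integral_norm_eq_lintegral_enorm (continuous_ker hM).aestronglyMeasurable]
  exact ENNReal.toReal_le_of_le_ofReal hκ hK

theorem conv_eq {M G : ℝ → ℂ} (hM : Integrable M) (hG : Integrable G) (x : ℝ) :
    ∫ ξ : ℝ, e (x * ξ) * (M ξ * ft G ξ) = ∫ v : ℝ, ker M (x - v) * G v := by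
  have hf : Integrable fun ξ : ℝ => e (x * ξ) * M ξ := by
    refine hM.bdd_mul (c := 1) ?_ (Filter.Eventually.of_forall fun ξ => (norm_e _).le)
    exact (continuous_e.comp (continuous_const.mul continuous_id)).aestronglyMeasurable
  have h1 := ft_mul hf hG
  have h2 : ∀ v, ft (fun ξ : ℝ => e (x * ξ) * M ξ) v = ker M (x - v) := by
    intro v
    unfold ft ker
    refine integral_congr_ae (Filter.Eventually.of_forall fun ξ => ?_)
    show e (-(ξ * v)) * (e (x * ξ) * M ξ) = e ((x - v) * ξ) * M ξ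
    rw [← mul_assoc, ← e_add]
    congr 2
    ring
  simp only [h2] at h1
  rw [← h1]
  refine integral_congr_ae (Filter.Eventually.of_forall fun ξ => ?_)
  show e (x * ξ) * (M ξ * ft G ξ) = e (x * ξ) * M ξ * ft G ξ
  ring

/-- Young's inequality for the fourth power -/
theorem young {k g : ℝ → ℝ≥0∞} (hk : Measurable k) (hg : Measurable g) :
    ∫⁻ x : ℝ, (∫⁻ v : ℝ, k (x - v) * g v) ^ 4 ≤ (∫⁻ x, k x) ^ 4 * ∫⁻ v, g v ^ 4 := by
  have h1 : ∀ x : ℝ, (∫⁻ v : ℝ, k (x - v) * g v) ^ 4 ≤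
      (∫⁻ x, k x) ^ 3 * ∫⁻ v : ℝ, k (x - v) * g v ^ 4 := by
    intro x
    have hk' : Measurable fun v => k (x - v) := hk.comp (measurable_const.sub measurable_id)
    have h2 := ENNReal.lintegral_mul_norm_pow_le (μ := (volume : Measure ℝ)) (p := 3 / 4)
      (q := 1 / 4) (f := fun v => k (x - v)) (g := fun v => k (x - v) * g v ^ 4) hk'.aemeasurable
      (hk'.mul (hg.pow_const 4)).aemeasurable (by norm_num) (by norm_num) (by norm_num)
    have h3 : ∀ v, k (x - v) ^ (3 / 4 : ℝ) * (k (x - v) * g v ^ 4) ^ (1 / 4 : ℝ) =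
        k (x - v) * g v := by
      intro v
      rw [ENNReal.mul_rpow_of_nonneg _ _ (by norm_num), ← mul_assoc,
        ← ENNReal.rpow_add_of_nonneg _ _ (by norm_num) (by norm_num), ← ENNReal.rpow_natCast,
        ← ENNReal.rpow_mul]
      norm_num
    simp only [h3] at h2
    have h4 : ∫⁻ v : ℝ, k (x - v) = ∫⁻ x, k x := lintegral_sub_left_eq_self k x
    rw [h4] at h2
    calc (∫⁻ v : ℝ, k (x - v) * g v) ^ 4
        ≤ ((∫⁻ x, k x) ^ (3 / 4 : ℝ) * (∫⁻ v : ℝ, k (x - v) * g v ^ 4) ^ (1 / 4 : ℝ)) ^ 4 := by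
          gcongr
      _ = (∫⁻ x, k x) ^ 3 * ∫⁻ v : ℝ, k (x - v) * g v ^ 4 := by
          rw [mul_pow, ← ENNReal.rpow_natCast, ← ENNReal.rpow_natCast, ← ENNReal.rpow_mul,
            ← ENNReal.rpow_mul]
          norm_num
  calc ∫⁻ x : ℝ, (∫⁻ v : ℝ, k (x - v) * g v) ^ 4
      ≤ ∫⁻ x : ℝ, (∫⁻ x, k x) ^ 3 * ∫⁻ v : ℝ, k (x - v) * g v ^ 4 := lintegral_mono h1
    _ = (∫⁻ x, k x) ^ 3 * ∫⁻ x : ℝ, ∫⁻ v : ℝ, k (x - v) * g v ^ 4 := by
        rw [lintegral_const_mul]
        apply Measurable.lintegral_prod_right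
        exact (hk.comp (measurable_fst.sub measurable_snd)).mul
          ((hg.comp measurable_snd).pow_const 4)
    _ = (∫⁻ x, k x) ^ 3 * ∫⁻ v : ℝ, ∫⁻ x : ℝ, k (x - v) * g v ^ 4 := by
        rw [lintegral_lintegral_swap]
        apply Measurable.aemeasurable
        exact (hk.comp (measurable_fst.sub measurable_snd)).mul
          ((hg.comp measurable_snd).pow_const 4)
    _ = (∫⁻ x, k x) ^ 3 * ∫⁻ v : ℝ, (∫⁻ x, k x) * g v ^ 4 := by
        congr 1
        refine lintegral_congr fun v => ?_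
        have hk2 : Measurable fun x => k (x - v) := hk.comp (measurable_id.sub measurable_const)
        rw [lintegral_mul_const _ hk2]
        congr 1
        exact lintegral_sub_right_eq_self k v
    _ = (∫⁻ x, k x) ^ 4 * ∫⁻ v, g v ^ 4 := by
        rw [lintegral_const_mul _ (hg.pow_const 4), ← mul_assoc, ← pow_succ]

theorem conv_ : S_CONV := by
  intro M κ hc hM hκ hK G hG
  have hK0 : ∫⁻ x : ℝ, ‖ker M x‖ₑ ≤ ENNReal.ofReal κ := hK
  have hKi := integrable_ker hM hK0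
  refine ⟨fun l hl x => ?_, ?_⟩
  · have hl0 : 0 ≤ l := (norm_nonneg _).trans (hl 0)
    rw [conv_eq hM hG]
    have h1 : Integrable fun v : ℝ => ‖ker M (x - v)‖ * l := (hKi.comp_sub_left x).norm.mul_const l
    refine (norm_integral_le_of_norm_le h1 (Filter.Eventually.of_forall fun v => ?_)).trans ?_
    · rw [norm_mul]
      exact mul_le_mul_of_nonneg_left (hl v) (norm_nonneg _)
    · rw [integral_mul_const, integral_sub_left_eq_self (fun v => ‖ker M v‖)]
      exact mul_le_mul_of_nonneg_right (norm_ker hκ hM hK0) hl0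
  · -- the convolution
    let G' : ℝ → ℂ := fun x => ∫ v : ℝ, ker M (x - v) * G v
    have hG'i : Integrable G' := by
      have h1 := hG.integrable_convolution (ContinuousLinearMap.mul ℂ ℂ) hKi
      refine h1.congr (Filter.Eventually.of_forall fun x => ?_)
      show (∫ t, (ContinuousLinearMap.mul ℂ ℂ) (G t) (ker M (x - t))) = ∫ v, ker M (x - v) * G v
      refine integral_congr_ae (Filter.Eventually.of_forall fun v => ?_)
      exact mul_comm _ _
    have hMG : Integrable fun ξ => M ξ * ft G ξ :=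
      hM.mul_bdd (c := ∫ x, ‖G x‖) (continuous_ft hG).aestronglyMeasurable
        (Filter.Eventually.of_forall fun ξ => norm_ft_le G ξ)
    have hG'k : G' = ker (fun ξ => M ξ * ft G ξ) := by
      funext x
      exact (conv_eq hM hG x).symm
    refine ⟨G', hG'i, fun ξ => ?_, ?_⟩
    · have h1 := ker_inv (M := fun ξ => M ξ * ft G ξ) (hc.mul (continuous_ft hG)) hMG
        (by rw [← hG'k]; exact hG'i) ξ
      rw [hG'k]
      exact h1
    · -- the bound
      obtain ⟨G0, hG0, hGG0⟩ := hG.aestronglyMeasurable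
      have h1 : ∀ x, ‖G' x‖ₑ ≤ ∫⁻ v : ℝ, ‖ker M (x - v)‖ₑ * ‖G0 v‖ₑ := by
        intro x
        refine (enorm_integral_le_lintegral_enorm _).trans (le_of_eq ?_)
        refine lintegral_congr_ae ?_
        filter_upwards [hGG0] with v hv
        rw [enorm_mul, hv]
      have h2 : ∫⁻ x : ℝ, ‖G x‖ₑ ^ 4 = ∫⁻ x : ℝ, ‖G0 x‖ₑ ^ 4 := by
        refine lintegral_congr_ae ?_
        filter_upwards [hGG0] with v hv
        rw [hv]
      rw [h2]
      calc ∫⁻ x : ℝ, ‖G' x‖ₑ ^ 4 ≤ ∫⁻ x : ℝ, (∫⁻ v : ℝ, ‖ker M (x - v)‖ₑ * ‖G0 v‖ₑ) ^ 4 :=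
            lintegral_mono fun x => pow_le_pow_left' (h1 x) 4
        _ ≤ (∫⁻ x, ‖ker M x‖ₑ) ^ 4 * ∫⁻ v, ‖G0 v‖ₑ ^ 4 :=
            young (k := fun x => ‖ker M x‖ₑ) (g := fun v => ‖G0 v‖ₑ)
              (continuous_ker hM).measurable.enorm hG0.measurable.enorm
        _ ≤ ENNReal.ofReal (κ ^ 4) * ∫⁻ v, ‖G0 v‖ₑ ^ 4 := by
            rw [ENNReal.ofReal_pow hκ]
            gcongr

end Pool.Agent.N7.LSP
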